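import Pool.Agent.Q208.EX.SMO
import Pool.Agent.Q270.EN.Core
import Pool.Agent.Q270.EN.Thr

/-!
# Project EX (helper270), job EVS: the number of the values with even exponents
-/

set_option autoImplicit false

namespace Pool.Agent.Q208.EX

open Finset Filter Topology
open Pool.Agent.Helper923.HRho (rho)
open Pool.Agent.Q270.EN

theorem card_pf {Y m N : ℕ} (hY : 2 ≤ Y) (hm : 1 ≤ m) (hmN : m ≤ N) {w : ℝ}
    (hw : Real.log N / Real.log Y ≤ w) :
    (((m.primeFactors).filter (Y < ·)).card : ℝ) ≤ w := by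
  have hlY : 0 < Real.log Y := Real.log_pos (by exact_mod_cast (by omega : 1 < Y))
  refine le_trans ?_ hw
  rw [le_div_iff₀ hlY]
  calc (((m.primeFactors).filter (Y < ·)).card : ℝ) * Real.log Y
      = ∑ _p ∈ (m.primeFactors).filter (Y < ·), Real.log Y := by rw [sum_const, nsmul_eq_mul]
    _ ≤ ∑ p ∈ (m.primeFactors).filter (Y < ·), Real.log p := by
        apply sum_le_sum
        intro p hp
        have := (mem_filter.1 hp).2
        apply Real.log_le_log
        · exact_mod_cast (by omega : 0 < Y)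
        · exact_mod_cast this.le
    _ ≤ ∑ p ∈ m.primeFactors, Real.log p := by
        apply sum_le_sum_of_subset_of_nonneg (filter_subset _ _)
        intro p _ _
        exact Real.log_natCast_nonneg p
    _ ≤ Real.log m := Pool.Agent.Helper923.HCount.sum_log_primeFactors_le hm
    _ ≤ Real.log N := Real.log_le_log (by exact_mod_cast hm) (by exact_mod_cast hmN)

theorem card_ap (N d b : ℕ) (hd : 0 < d) :
    ((((Icc 1 N).filter fun n => d ∣ n + b).card : ℕ) : ℝ) ≤ N / d + 1 := by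
  have h1 := (abs_le.1 (Pool.Agent.Q163.RP.card_dvd N d 1 b hd (Nat.coprime_one_left d))).2
  simp only [one_mul] at h1
  linarith

theorem prod_sh (H : Finset ℕ) (n : ℕ) : ∏ q ∈ sh H, (q.1 * n + q.2) = ∏ h ∈ H, (n + h) := by
  unfold sh
  rw [prod_image]
  · simp
  · intro a _ b _ hab
    exact (Prod.mk.inj hab).2

theorem evn_mono (P : Set ℕ) (T : Finset (ℕ × ℕ)) (X N : ℕ) {y y' : ℕ} (hy : y ≤ y') :
    evn P T X N y ≤ evn P T X N y' := by
  classical
  unfold evn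
  apply card_le_card
  intro n hn
  rw [mem_filter] at hn ⊢
  exact ⟨hn.1, fun p hp hpy => hn.2 p hp (lt_of_le_of_lt hy hpy)⟩

open scoped Classical in
theorem card_sq (N b Y : ℕ) (hY : 1 ≤ Y) (hb : b ≤ N) :
    ((((Icc 1 N).filter fun n => ∃ p : ℕ, p.Prime ∧ Y < p ∧ p ^ 2 ∣ n + b).card : ℕ) : ℝ) ≤
      N / Y + Real.sqrt (2 * N) := by
  classical
  obtain ⟨R, hR⟩ : ∃ R : Finset ℕ, R = (Icc 1 (Nat.sqrt (2 * N))).filter (Y < ·) := ⟨_, rfl⟩
  have h1 : (Icc 1 N).filter (fun n => ∃ p : ℕ, p.Prime ∧ Y < p ∧ p ^ 2 ∣ n + b) ⊆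
      R.biUnion fun p => (Icc 1 N).filter fun n => p ^ 2 ∣ n + b := by
    intro n hn
    obtain ⟨h2, p, h3, h4, h5⟩ := mem_filter.1 hn
    rw [mem_Icc] at h2
    have h6 := Nat.le_of_dvd (by omega) h5
    rw [mem_biUnion]
    refine ⟨p, ?_, mem_filter.2 ⟨mem_Icc.2 h2, h5⟩⟩
    rw [hR, mem_filter, mem_Icc]
    refine ⟨⟨h3.one_lt.le, ?_⟩, h4⟩
    rw [Nat.le_sqrt']
    omega
  have h2 : ((((Icc 1 N).filter fun n => ∃ p : ℕ, p.Prime ∧ Y < p ∧ p ^ 2 ∣ n + b).card : ℕ) : ℝ) ≤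
      ∑ p ∈ R, ((((Icc 1 N).filter fun n => p ^ 2 ∣ n + b).card : ℕ) : ℝ) := by
    exact_mod_cast (card_le_card h1).trans card_biUnion_le
  refine h2.trans ?_
  have hRY : ∀ p ∈ R, Y < p := by
    intro p hp
    rw [hR] at hp
    exact (mem_filter.1 hp).2
  have h3 : ∀ p ∈ R, ((((Icc 1 N).filter fun n => p ^ 2 ∣ n + b).card : ℕ) : ℝ) ≤
      N * (1 / (p : ℝ) ^ 2) + 1 := by
    intro p hp
    have hp1 := hRY p hp
    have h4 := card_ap N (p ^ 2) b (by
      have : 0 < p := by omega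
      positivity)
    push_cast at h4
    rw [mul_one_div]
    exact h4
  refine (sum_le_sum h3).trans ?_
  rw [sum_add_distrib, ← mul_sum, sum_const, nsmul_eq_mul, mul_one]
  have h4 := inv_sq_sum Y hY R hRY
  have hN0 : (0 : ℝ) ≤ N := Nat.cast_nonneg _
  have h5 : (N : ℝ) * ∑ p ∈ R, 1 / (p : ℝ) ^ 2 ≤ N / Y := by
    calc (N : ℝ) * ∑ p ∈ R, 1 / (p : ℝ) ^ 2 ≤ N * (1 / Y) := mul_le_mul_of_nonneg_left h4 hN0
      _ = N / Y := by ring
  have h6 : (R.card : ℝ) ≤ Real.sqrt (2 * N) := by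
    have h7 : R.card ≤ Nat.sqrt (2 * N) := by
      rw [hR]
      refine (card_filter_le _ _).trans ?_
      simp
    have h8 : ((Nat.sqrt (2 * N) : ℕ) : ℝ) ≤ Real.sqrt ((2 * N : ℕ) : ℝ) :=
      Real.nat_sqrt_le_real_sqrt
    push_cast at h8
    have h9 : (R.card : ℝ) ≤ (Nat.sqrt (2 * N) : ℕ) := by exact_mod_cast h7
    linarith
  linarith

open scoped Classical in
theorem card_cop (N b Y k : ℕ) (H : Finset ℕ) (hY : 2 ≤ Y) (hb : b ≤ N) (hH : H ⊆ range (N + 1))
    (hk : H.card ≤ k) {w : ℝ} (hw0 : 0 ≤ w) (hw : Real.log N / Real.log Y ≤ w) :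
    ((((Icc 1 N).filter fun n => ∃ h ∈ H, h ≠ b ∧ ∃ p : ℕ, p.Prime ∧ Y < p ∧ p ∣ n + b ∧
      p ∣ n + h).card : ℕ) : ℝ) ≤ k * (w * (N / Y + 1)) := by
  classical
  have h1 : (Icc 1 N).filter (fun n => ∃ h ∈ H, h ≠ b ∧ ∃ p : ℕ, p.Prime ∧ Y < p ∧ p ∣ n + b ∧
      p ∣ n + h) ⊆ H.biUnion fun h => (((Int.natAbs ((h : ℤ) - b)).primeFactors).filter (Y < ·)).biUnion
        fun p => (Icc 1 N).filter fun n => p ∣ n + b := by
    intro n hn
    obtain ⟨h2, h, h3, h4, p, h5, h6, h7, h8⟩ := mem_filter.1 hn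
    rw [mem_biUnion]
    refine ⟨h, h3, ?_⟩
    rw [mem_biUnion]
    refine ⟨p, ?_, mem_filter.2 ⟨h2, h7⟩⟩
    rw [mem_filter, Nat.mem_primeFactors]
    refine ⟨⟨h5, ?_, ?_⟩, h6⟩
    · rw [← Int.natCast_dvd]
      have e1 : ((p : ℕ) : ℤ) ∣ ((n + h : ℕ) : ℤ) := by exact_mod_cast h8
      have e2 : ((p : ℕ) : ℤ) ∣ ((n + b : ℕ) : ℤ) := by exact_mod_cast h7
      have e3 := dvd_sub e1 e2
      have e4 : ((n + h : ℕ) : ℤ) - ((n + b : ℕ) : ℤ) = (h : ℤ) - b := by push_cast; ring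
      rwa [e4] at e3
    · rw [Int.natAbs_ne_zero]
      omega
  have h2 : ((((Icc 1 N).filter fun n => ∃ h ∈ H, h ≠ b ∧ ∃ p : ℕ, p.Prime ∧ Y < p ∧ p ∣ n + b ∧
      p ∣ n + h).card : ℕ) : ℝ) ≤
      ∑ h ∈ H, ∑ p ∈ ((Int.natAbs ((h : ℤ) - b)).primeFactors).filter (Y < ·),
        ((((Icc 1 N).filter fun n => p ∣ n + b).card : ℕ) : ℝ) := by
    have h3 := (card_le_card h1).trans (card_biUnion_le.trans
      (sum_le_sum fun h _ => card_biUnion_le))
    exact_mod_cast h3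
  refine h2.trans ?_
  have hY0 : (0 : ℝ) < Y := by exact_mod_cast (by omega : 0 < Y)
  have hN0 : (0 : ℝ) ≤ N := Nat.cast_nonneg _
  have h3 : ∀ h ∈ H, ∑ p ∈ ((Int.natAbs ((h : ℤ) - b)).primeFactors).filter (Y < ·),
        ((((Icc 1 N).filter fun n => p ∣ n + b).card : ℕ) : ℝ) ≤ w * (N / Y + 1) := by
    intro h hh
    have hhN := mem_range.1 (hH hh)
    have h4 : ∀ p ∈ ((Int.natAbs ((h : ℤ) - b)).primeFactors).filter (Y < ·),
        ((((Icc 1 N).filter fun n => p ∣ n + b).card : ℕ) : ℝ) ≤ N / Y + 1 := by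
      intro p hp
      have hp1 := (mem_filter.1 hp).2
      have h5 := card_ap N p b (by omega)
      have h6 : (N : ℝ) / p ≤ N / Y := by
        apply div_le_div_of_nonneg_left hN0 hY0
        exact_mod_cast hp1.le
      linarith
    refine (sum_le_sum h4).trans ?_
    rw [sum_const, nsmul_eq_mul]
    apply mul_le_mul_of_nonneg_right _ (by positivity)
    by_cases hhb : Int.natAbs ((h : ℤ) - b) = 0
    · rw [hhb]
      simpa using hw0
    · exact card_pf hY (by omega) (by omega) hw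
  refine (sum_le_sum h3).trans ?_
  rw [sum_const, nsmul_eq_mul]
  apply mul_le_mul_of_nonneg_right _ (by positivity)
  exact_mod_cast hk

open scoped Classical in
theorem evn_sub (N Y b : ℕ) (H : Finset ℕ) (hb : b ∈ H) (hH : H ⊆ range (N + 1)) :
    evn Set.univ (sh H) (2 * N) N Y ≤ smc N b Y +
      (((Icc 1 N).filter fun n => ∃ p : ℕ, p.Prime ∧ Y < p ∧ p ^ 2 ∣ n + b).card +
      ((Icc 1 N).filter fun n => ∃ h ∈ H, h ≠ b ∧ ∃ p : ℕ, p.Prime ∧ Y < p ∧ p ∣ n + b ∧
      p ∣ n + h).card) := by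
  classical
  unfold evn smc
  refine le_trans (card_le_card (t := ((Icc 1 N).filter fun n => ∀ p ∈ (n + b).primeFactors, p ≤ Y) ∪
    (((Icc 1 N).filter fun n => ∃ p : ℕ, p.Prime ∧ Y < p ∧ p ^ 2 ∣ n + b) ∪
      ((Icc 1 N).filter fun n => ∃ h ∈ H, h ≠ b ∧ ∃ p : ℕ, p.Prime ∧ Y < p ∧ p ∣ n + b ∧
      p ∣ n + h))) ?_) ?_
  · intro n hn
    obtain ⟨hn1, hn2⟩ := mem_filter.1 hn
    rw [mem_union, mem_union]
    by_cases hs : ∀ p ∈ (n + b).primeFactors, p ≤ Y
    · left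
      exact mem_filter.2 ⟨hn1, hs⟩
    right
    by_cases hc : ∃ h ∈ H, h ≠ b ∧ ∃ p : ℕ, p.Prime ∧ Y < p ∧ p ∣ n + b ∧ p ∣ n + h
    · right
      exact mem_filter.2 ⟨hn1, hc⟩
    left
    rw [not_forall] at hs
    obtain ⟨p, hs⟩ := hs
    rw [Classical.not_imp] at hs
    obtain ⟨hp1, hp2⟩ := hs
    rw [not_le] at hp2
    obtain ⟨hpp, hpd, hp0⟩ := Nat.mem_primeFactors.1 hp1
    rw [mem_Icc] at hn1
    have hbN := mem_range.1 (hH hb)
    have hple : p ≤ 2 * N := (Nat.le_of_dvd (by omega) hpd).trans (by omega)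
    have hev := hn2 p (mem_pr.2 ⟨hpp, Set.mem_univ _, hple⟩) hp2
    rw [prod_sh, Nat.factorization_prod (fun h _ => by omega), Finsupp.finsetSum_apply] at hev
    have hsum : ∑ h ∈ H, (n + h).factorization p = (n + b).factorization p := by
      apply sum_eq_single b
      · intro h hh hhb
        apply Nat.factorization_eq_zero_of_not_dvd
        intro hd
        exact hc ⟨h, hh, hhb, p, hpp, hp2, hpd, hd⟩
      · intro h
        exact absurd hb h
    rw [hsum] at hev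
    have hpos : 1 ≤ (n + b).factorization p := (hpp.dvd_iff_one_le_factorization hp0).1 hpd
    have h2 : 2 ≤ (n + b).factorization p := by
      obtain ⟨r, hr⟩ := hev
      omega
    refine mem_filter.2 ⟨mem_Icc.2 hn1, p, hpp, hp2, ?_⟩
    exact (hpp.pow_dvd_iff_le_factorization hp0).2 h2
  · refine (card_union_le _ _).trans ?_
    exact Nat.add_le_add_left (card_union_le _ _) _

theorem t_EVS : S_SMO → S_EVS := by
  classical
  intro hS
  obtain ⟨hS1, hS2⟩ := hS
  constructor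
  · intro k v δ hv hδ
    have hv0 : 0 < v := by linarith
    have hY := floor_tendsto hv
    have hr := ratio_tendsto hv
    have hYr := (tendsto_natCast_atTop_atTop (R := ℝ)).comp hY
    have hNr := tendsto_natCast_atTop_atTop (R := ℝ)
    obtain ⟨K, hK⟩ : ∃ K : ℝ, K = 1 + k * (v + 1) := ⟨_, rfl⟩
    have hK0 : 0 < K := by rw [hK]; positivity
    filter_upwards [hS1 v (δ / 2) hv (by positivity), hr.eventually_lt_const (show v < v + 1 by linarith),
      hY.eventually_ge_atTop 2, hYr.eventually_ge_atTop (8 * K / δ),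
      hNr.eventually_ge_atTop (8 * K / δ), hNr.eventually_ge_atTop (128 / δ ^ 2),
      eventually_ge_atTop 1] with N h1 h2 h3 h4 h5 h6 h7
    intro H y hH hk hHN hy
    obtain ⟨Y, hYdef⟩ : ∃ Y : ℕ, Y = ⌊(N : ℝ) ^ (1 / v)⌋₊ := ⟨_, rfl⟩
    simp only [Function.comp] at h4
    rw [← hYdef] at h2 h3 h4
    obtain ⟨b, hb⟩ := hH
    have hbN := mem_range.1 (hHN hb)
    have hyY : y ≤ Y := by
      rw [hYdef]
      exact Nat.le_floor hy
    have hYr : (Y : ℝ) ≤ (N : ℝ) ^ (1 / v) := by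
      rw [hYdef]
      exact Nat.floor_le (by positivity)
    have e1 : (evn Set.univ (sh H) (2 * N) N y : ℝ) ≤ evn Set.univ (sh H) (2 * N) N Y := by
      exact_mod_cast evn_mono _ _ _ _ hyY
    have e2 : (evn Set.univ (sh H) (2 * N) N Y : ℝ) ≤ smc N b Y +
      ((((Icc 1 N).filter fun n => ∃ p : ℕ, p.Prime ∧ Y < p ∧ p ^ 2 ∣ n + b).card : ℝ) +
      (((Icc 1 N).filter fun n => ∃ h ∈ H, h ≠ b ∧ ∃ p : ℕ, p.Prime ∧ Y < p ∧ p ∣ n + b ∧
      p ∣ n + h).card : ℝ)) := by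
      exact_mod_cast evn_sub N Y b H hb hHN
    have e3 := h1 b Y (by omega) hYr
    have e4 := card_sq N b Y (by omega) (by omega)
    have e5 := card_cop N b Y k H h3 (by omega) hHN hk (w := v + 1) (by positivity) h2.le
    have hN0 : (0 : ℝ) < N := by exact_mod_cast h7
    have hY0 : (0 : ℝ) < Y := by exact_mod_cast (by omega : 0 < Y)
    have e6 : (N : ℝ) / Y + k * ((v + 1) * (N / Y + 1)) ≤ K * (N / Y + 1) := by
      rw [hK]
      have : (0 : ℝ) ≤ N / Y := by positivity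
      nlinarith
    have e7 : K * (N / Y + 1) ≤ δ / 4 * N := by
      have f1 : K / Y ≤ δ / 8 := by
        rw [div_le_iff₀ hY0]
        rw [div_le_iff₀ hδ] at h4
        linarith
      have f2 : K ≤ δ / 8 * N := by
        rw [div_le_iff₀ hδ] at h5
        linarith
      have f3 : K * (N / Y + 1) = K / Y * N + K := by
        field_simp
      rw [f3]
      nlinarith
    have e8 : Real.sqrt (2 * N) ≤ δ / 4 * N := by
      rw [Real.sqrt_le_left (by positivity)]
      have f1 : 128 ≤ N * δ ^ 2 := by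
        rw [div_le_iff₀ (by positivity)] at h6
        exact h6
      have f2 : (δ / 4 * N) ^ 2 = N * δ ^ 2 * N / 16 := by ring
      rw [f2]
      nlinarith
    linarith
  · intro v δ hv hδ h
    filter_upwards [hS2 v δ hv hδ h] with N h1
    intro y hy
    refine (h1 y hy).trans ?_
    have h2 : smc N h y ≤ evn Set.univ (sh {h}) (2 * N) N y := by
      classical
      unfold smc evn
      apply card_le_card
      intro n hn
      rw [mem_filter] at hn ⊢
      refine ⟨hn.1, fun p hp hpy => ?_⟩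
      have hn1 := mem_Icc.1 hn.1
      rw [prod_sh, prod_singleton]
      have h3 : (n + h).factorization p = 0 := by
        apply Nat.factorization_eq_zero_of_not_dvd
        intro hd
        have h4 := hn.2 p (Nat.mem_primeFactors.2 ⟨(mem_pr.1 hp).1, hd, by omega⟩)
        omega
      rw [h3]
      exact ⟨0, rfl⟩
    exact_mod_cast h2

end Pool.Agent.Q208.EX
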