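import Pool.Agent.Q240.EX.Stm
import Pool.Agent.Q16.CD.Gap

set_option autoImplicit false

/-!
# Project EX of helper240: job Gap2 (the form is infinitely large on the polynomials `X h`)
-/

open Polynomial Filter Topology Finset MeasureTheory
open Pool.Agent.Q240.CD
open Pool.Agent.Q16.CD (g_top)

namespace Pool.Agent.Q208.EX

/-- the main estimate (compare `Pool.Agent.Q16.CD.gap_core`) -/
theorem gap_core2 {g M : ℕ → ℝ} {n J : ℕ} (hPM : PM g M n) {h : ℝ[X]} (hh : h.natDegree + 1 ≤ n) (e : ℕ → ℝ[X])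
    (hed : ∀ j, j < J → (e j).natDegree ≤ n) (he1 : ∀ j, j < J → (e j).eval (g j) = 1)
    (he0 : ∀ j, j < J → ∀ k, k < J → k ≠ j → (e j).eval (g k) = 0) :
    Lam g M ((h - ∑ j ∈ range J, C (h.eval (g j)) * e j) * (h - ∑ j ∈ range J, C (h.eval (g j)) * e j)) ≤
      2 / g J * Lam g M (X * h * h) +
        ∑ j ∈ range J, 2 * J * h.eval (g j) ^ 2 * (Lam g M (e j * e j) - M j) := by
  have hg := Pool.Agent.Q16.CD.PM.gpos hPM
  have hm := hPM.mono
  obtain ⟨h', hh'⟩ : ∃ h', h' = h - ∑ j ∈ range J, C (h.eval (g j)) * e j := ⟨_, rfl⟩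
  rw [← hh']
  have hev : ∀ t, h'.eval t = h.eval t - ∑ j ∈ range J, h.eval (g j) * (e j).eval t := by
    intro t
    rw [hh', eval_sub, eval_finsetSum]
    simp only [eval_mul, eval_C]
  have hd' : h'.natDegree ≤ n := by
    rw [hh']
    refine (natDegree_sub_le_of_le (n := n) (by omega) ?_).trans (max_self _).le
    refine natDegree_sum_le_of_forall_le _ _ fun j hj => ?_
    exact (natDegree_C_mul_le _ _).trans (hed j (mem_range.1 hj))
  have s1 : HasSum (fun k => M k * (h' * h').eval (g k)) (Lam g M (h' * h')) :=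
    (Pool.Agent.Q16.CD.PM.summ hPM (natDegree_mul_le.trans (by omega))).hasSum
  have s2 : HasSum (fun k => M k * (X * h * h).eval (g k)) (Lam g M (X * h * h)) := by
    refine (Pool.Agent.Q16.CD.PM.summ hPM ?_).hasSum
    refine natDegree_mul_le.trans ?_
    have : (X * h : ℝ[X]).natDegree ≤ 1 + h.natDegree := natDegree_mul_le.trans (by rw [natDegree_X])
    omega
  have s3 : ∀ j ∈ range J, HasSum (fun k => 2 * J * h.eval (g j) ^ 2 * (M k * (e j * e j).eval (g k) -
      if k = j then M j else 0)) (2 * J * h.eval (g j) ^ 2 * (Lam g M (e j * e j) - M j)) := by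
    intro j hj
    refine HasSum.mul_left _ (HasSum.sub ?_ (hasSum_ite_eq j (M j)))
    refine (Pool.Agent.Q16.CD.PM.summ hPM ?_).hasSum
    have := hed j (mem_range.1 hj)
    exact natDegree_mul_le.trans (by omega)
  have s4 := (s2.mul_left (2 / g J)).add (hasSum_sum s3)
  refine hasSum_le (fun k => ?_) s1 s4
  have hMk := hPM.nonneg k
  simp only [eval_mul, eval_X]
  have hnn : ∀ j ∈ range J, 0 ≤ 2 * J * h.eval (g j) ^ 2 * (M k * ((e j).eval (g k) * (e j).eval (g k)) -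
      if k = j then M j else 0) := by
    intro j hj
    refine mul_nonneg (by positivity) ?_
    by_cases hkj : k = j
    · rw [if_pos hkj, hkj, he1 j (mem_range.1 hj)]
      simp
    · rw [if_neg hkj, sub_zero]
      exact mul_nonneg hMk (mul_self_nonneg _)
  by_cases hkJ : k < J
  · have h0 : h'.eval (g k) = 0 := by
      rw [hev, sum_eq_single k]
      · rw [he1 k hkJ, mul_one, sub_self]
      · intro j hj hjk
        rw [he0 j (mem_range.1 hj) k hkJ (Ne.symm hjk), mul_zero]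
      · intro hk
        exact absurd (mem_range.2 hkJ) hk
    rw [h0, mul_zero, mul_zero]
    have h1 : 0 ≤ 2 / g J * (M k * (g k * h.eval (g k) * h.eval (g k))) := by
      have := hg J
      have := hg k
      have h2 := mul_self_nonneg (h.eval (g k))
      have h3 : g k * h.eval (g k) * h.eval (g k) = g k * (h.eval (g k) * h.eval (g k)) := by ring
      rw [h3]
      positivity
    exact add_nonneg h1 (sum_nonneg hnn)
  · have h1 : h'.eval (g k) * h'.eval (g k) ≤ 2 * h.eval (g k) ^ 2 +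
        ∑ j ∈ range J, 2 * J * h.eval (g j) ^ 2 * ((e j).eval (g k) * (e j).eval (g k)) := by
      have h2 := sq_sum_le_card_mul_sum_sq (s := range J) (f := fun j => h.eval (g j) * (e j).eval (g k))
      rw [card_range] at h2
      have h3 : h'.eval (g k) * h'.eval (g k) ≤ 2 * h.eval (g k) ^ 2 +
          2 * (∑ j ∈ range J, h.eval (g j) * (e j).eval (g k)) ^ 2 := by
        rw [hev]
        nlinarith [sq_nonneg (h.eval (g k) + ∑ j ∈ range J, h.eval (g j) * (e j).eval (g k))]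
      have h4 : ∑ j ∈ range J, 2 * J * h.eval (g j) ^ 2 * ((e j).eval (g k) * (e j).eval (g k)) =
          2 * (J * ∑ j ∈ range J, (h.eval (g j) * (e j).eval (g k)) ^ 2) := by
        rw [mul_sum, mul_sum]
        exact sum_congr rfl fun j _ => by ring
      rw [h4]
      linarith
    have h5 : 2 * h.eval (g k) ^ 2 ≤ 2 / g J * (g k * h.eval (g k) * h.eval (g k)) := by
      have h6 : g J ≤ g k := hm.monotone (not_lt.1 hkJ)
      have h7 := hg J
      have h8 : 2 / g J * (g k * h.eval (g k) * h.eval (g k)) = (g k / g J) * (2 * h.eval (g k) ^ 2) := by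
        field_simp
      rw [h8]
      exact le_mul_of_one_le_left (by positivity) ((one_le_div h7).2 h6)
    calc M k * (h'.eval (g k) * h'.eval (g k)) ≤ M k * (2 / g J * (g k * h.eval (g k) * h.eval (g k)) +
          ∑ j ∈ range J, 2 * J * h.eval (g j) ^ 2 * ((e j).eval (g k) * (e j).eval (g k))) :=
          mul_le_mul_of_nonneg_left (by linarith) hMk
      _ = 2 / g J * (M k * (g k * h.eval (g k) * h.eval (g k))) +
          ∑ j ∈ range J, 2 * J * h.eval (g j) ^ 2 * (M k * ((e j).eval (g k) * (e j).eval (g k)) -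
            if k = j then M j else 0) := by
        rw [mul_add, mul_sum]
        congr 1
        · ring
        · refine sum_congr rfl fun j hj => ?_
          rw [if_neg (by have := mem_range.1 hj; omega)]
          ring

/-- JOB EX-Gap2. -/
theorem gap2 (hK1 : Pool.Agent.Q240.EX.S_K1) (hDel : Pool.Agent.Q240.EX.S_Del2) : Pool.Agent.Q240.EX.S_Gap2 := by
  intro ι l g N M hF q0 hq0 T ε hε
  have hδt := hDel l g N M hF q0 hq0
  have hm := hF.mono
  have hg : ∀ j, 0 < g j := fun j => lt_of_lt_of_le hF.pos (hm.monotone (Nat.zero_le j))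
  have hs := hF.gsum
  obtain ⟨T₁, hT₁⟩ : ∃ T₁, T₁ = max T 0 := ⟨_, rfl⟩
  have hT0 : 0 ≤ T₁ := by rw [hT₁]; exact le_max_right _ _
  obtain ⟨E, hE⟩ : ∃ E, E = Real.exp (2 * T₁ * ∑' j, 1 / g j) := ⟨_, rfl⟩
  have hE0 : 0 < E := by rw [hE]; exact Real.exp_pos _
  have hsum0 : 0 ≤ ∑' j, 1 / g j := tsum_nonneg fun j => by have := hg j; positivity
  -- `J`
  obtain ⟨J, hJ⟩ := ((g_top hg hs).eventually_ge_atTop (16 * E / ε)).exists
  have hgJ := hg J
  have hJ' : 2 * (E * (2 / g J)) ≤ ε / 4 := by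
    rw [div_le_iff₀ hε] at hJ
    have e : 2 * (E * (2 / g J)) = 4 * E / g J := by ring
    rw [e, div_le_iff₀ hgJ]
    nlinarith
  choose c hc0 hc using hF.low
  obtain ⟨Cj, hCj⟩ : ∃ Cj : ℕ → ℝ, Cj = fun j => 1 / (c j * g j) := ⟨_, rfl⟩
  have hCj0 : ∀ j, 0 ≤ Cj j := fun j => by
    rw [hCj]
    have := hc0 j
    have := hg j
    positivity
  obtain ⟨S1, hS1⟩ : ∃ S1 : ℝ, S1 = ∑ j ∈ range J, Cj j := ⟨_, rfl⟩
  have hS10 : 0 ≤ S1 := by rw [hS1]; exact sum_nonneg fun j _ => hCj0 j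
  obtain ⟨η, hη⟩ : ∃ η : ℝ, η = ε / (16 * E * J * S1 + 16) := ⟨_, rfl⟩
  have hη0 : 0 < η := by rw [hη]; positivity
  have hη1 : 2 * (E * (2 * J * S1 * η)) ≤ ε / 4 := by
    have h0 : 0 ≤ E * J * S1 := by positivity
    have h1 : η * (16 * E * J * S1 + 16) = ε := by rw [hη]; field_simp
    nlinarith
  -- the separating polynomials
  have hsep : ∀ j, ∃ B : ℝ, j < J → ∀ᶠ i in l, ∃ e : ℝ[X], e.natDegree + 1 ≤ N i ∧ e.eval (g j) = 1 ∧
      (∀ k, k < J → k ≠ j → e.eval (g k) = 0) ∧ Lam g (M i) (e * e) - M i j ≤ η ∧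
      ∀ z : ℂ, ‖z‖ ≤ T₁ → ‖aeval z e‖ ≤ B := by
    intro j
    by_cases hj : j < J
    · obtain ⟨B, hB⟩ := hF.sep J j T₁ η hj hη0
      exact ⟨B, fun _ => hB⟩
    · exact ⟨0, fun h => absurd h hj⟩
  choose B hB using hsep
  obtain ⟨S2, hS2⟩ : ∃ S2 : ℝ, S2 = ∑ j ∈ range J, Cj j * B j ^ 2 := ⟨_, rfl⟩
  have hS20 : 0 ≤ S2 := by rw [hS2]; exact sum_nonneg fun j _ => mul_nonneg (hCj0 j) (sq_nonneg _)
  -- eventually
  have v1 : ∀ᶠ i in l, ∀ j ∈ range J, c j ≤ M i j := (eventually_all_finset (range J)).2 fun j _ => hc j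
  have v2 : ∀ᶠ i in l, ∀ j ∈ range J, ∃ e : ℝ[X], e.natDegree + 1 ≤ N i ∧ e.eval (g j) = 1 ∧
      (∀ k, k < J → k ≠ j → e.eval (g k) = 0) ∧ Lam g (M i) (e * e) - M i j ≤ η ∧
      ∀ z : ℂ, ‖z‖ ≤ T₁ → ‖aeval z e‖ ≤ B j :=
    (eventually_all_finset (range J)).2 fun j hj => hB j (mem_range.1 hj)
  have v3 : ∀ᶠ i in l, Lam g (M i) (q0 i * q0 i) < ε / (8 * J * S2 + 8) :=
    hδt.eventually (gt_mem_nhds (by positivity))
  filter_upwards [hF.pm, v1, v2, v3, hq0] with i hPM w1 w2 w3 hEx h hh z hz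
  obtain ⟨δ, hδ⟩ : ∃ δ : ℝ, δ = Lam g (M i) (q0 i * q0 i) := ⟨_, rfl⟩
  have hq0ne : q0 i ≠ 0 := by
    intro h0
    have := hEx.2.1
    rw [h0, eval_zero] at this
    exact zero_ne_one this
  have hδ0 : 0 < δ := by rw [hδ]; exact hPM.dfn _ hEx.1 hq0ne
  rw [← hδ] at w3 ⊢
  obtain ⟨L, hL⟩ : ∃ L : ℝ, L = Lam g (M i) (X * h * h) := ⟨_, rfl⟩
  have hzT : ‖z‖ ≤ T₁ := by rw [hT₁]; exact hz.trans (le_max_left _ _)
  -- the values at the points
  have hsX : Summable fun k => M i k * (X * h * h).eval (g k) := by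
    refine Pool.Agent.Q16.CD.PM.summ hPM ?_
    refine natDegree_mul_le.trans ?_
    have : (X * h : ℝ[X]).natDegree ≤ 1 + h.natDegree := natDegree_mul_le.trans (by rw [natDegree_X])
    omega
  have hterm : ∀ k, M i k * (X * h * h).eval (g k) = M i k * (g k * h.eval (g k) ^ 2) := fun k => by
    simp only [eval_mul, eval_X]
    ring
  have hL0 : 0 ≤ L := by
    rw [hL]
    refine tsum_nonneg fun k => ?_
    rw [hterm]
    have := hPM.nonneg k
    have := hg k
    positivity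
  have hval : ∀ j ∈ range J, h.eval (g j) ^ 2 ≤ Cj j * L := by
    intro j hj
    have h1 : M i j * (X * h * h).eval (g j) ≤ Lam g (M i) (X * h * h) :=
      hsX.le_tsum j fun k _ => by
        rw [hterm]
        have := hPM.nonneg k
        have := hg k
        positivity
    rw [hterm, ← hL] at h1
    have h2 := hg j
    have h3 := hc0 j
    have h4 : c j * (g j * h.eval (g j) ^ 2) ≤ L :=
      le_trans (mul_le_mul_of_nonneg_right (w1 j hj) (by positivity)) h1
    rw [hCj]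
    show h.eval (g j) ^ 2 ≤ 1 / (c j * g j) * L
    rw [div_mul_eq_mul_div, one_mul, le_div_iff₀ (by positivity)]
    linarith
  choose e' he' using w2
  obtain ⟨e, hedef⟩ : ∃ e : ℕ → ℝ[X], e = fun j => if hj : j ∈ range J then e' j hj else 0 := ⟨_, rfl⟩
  have hee : ∀ j (hj : j ∈ range J), e j = e' j hj := fun j hj => by
    rw [hedef]
    exact dif_pos hj
  have hed : ∀ j, j < J → (e j).natDegree + 1 ≤ N i := fun j hj => by
    rw [hee j (mem_range.2 hj)]
    exact (he' j (mem_range.2 hj)).1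
  have he1 : ∀ j, j < J → (e j).eval (g j) = 1 := fun j hj => by
    rw [hee j (mem_range.2 hj)]
    exact (he' j (mem_range.2 hj)).2.1
  have he0 : ∀ j, j < J → ∀ k, k < J → k ≠ j → (e j).eval (g k) = 0 := fun j hj => by
    rw [hee j (mem_range.2 hj)]
    exact (he' j (mem_range.2 hj)).2.2.1
  have heL : ∀ j, j < J → Lam g (M i) (e j * e j) - M i j ≤ η := fun j hj => by
    rw [hee j (mem_range.2 hj)]
    exact (he' j (mem_range.2 hj)).2.2.2.1
  have heB : ∀ j, j < J → ‖aeval z (e j)‖ ≤ B j := fun j hj => by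
    rw [hee j (mem_range.2 hj)]
    exact (he' j (mem_range.2 hj)).2.2.2.2 z hzT
  obtain ⟨h', hh'⟩ : ∃ h', h' = h - ∑ j ∈ range J, Polynomial.C (h.eval (g j)) * e j := ⟨_, rfl⟩
  have hcore := gap_core2 hPM hh e (fun j hj => (Nat.le_succ _).trans (hed j hj)) he1 he0
  rw [← hh'] at hcore
  have hd' : h'.natDegree ≤ N i := by
    rw [hh']
    refine (natDegree_sub_le_of_le (n := N i) (by omega) ?_).trans (max_self _).le
    refine natDegree_sum_le_of_forall_le _ _ fun j hj => ?_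
    have := hed j (mem_range.1 hj)
    exact (natDegree_C_mul_le _ _).trans (by omega)
  have hLam' : Lam g (M i) (h' * h') ≤ (2 / g J + 2 * J * S1 * η) * L := by
    refine hcore.trans ?_
    rw [← hL]
    have h2 : ∑ j ∈ range J, 2 * J * h.eval (g j) ^ 2 * (Lam g (M i) (e j * e j) - M i j) ≤
        ∑ j ∈ range J, 2 * J * (Cj j * L) * η := by
      refine sum_le_sum fun j hj => ?_
      have h3 := hval j hj
      have h4 := heL j (mem_range.1 hj)
      have h5 : 0 ≤ 2 * (J : ℝ) * h.eval (g j) ^ 2 := by positivity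
      calc 2 * J * h.eval (g j) ^ 2 * (Lam g (M i) (e j * e j) - M i j) ≤ 2 * J * h.eval (g j) ^ 2 * η :=
            mul_le_mul_of_nonneg_left h4 h5
        _ ≤ 2 * J * (Cj j * L) * η := by gcongr
    have h3 : ∑ j ∈ range J, 2 * J * (Cj j * L) * η = 2 * J * S1 * η * L := by
      rw [hS1, mul_sum, sum_mul, sum_mul]
      exact sum_congr rfl fun j _ => by ring
    rw [h3] at h2
    linarith
  -- the kernel bound
  have hk := hK1 g (M i) (N i) hPM hs (q0 i) hEx h' z hd'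
  rw [← hδ] at hk
  have hk2 : ‖aeval z h'‖ ^ 2 * δ ≤ E * ((2 / g J + 2 * J * S1 * η) * L) := by
    refine hk.trans ?_
    have h1 : Real.exp (2 * ‖z‖ * ∑' j, 1 / g j) ≤ E := by
      rw [hE, Real.exp_le_exp]
      gcongr
    have h2 : 0 ≤ (2 / g J + 2 * J * S1 * η) * L := by positivity
    calc Real.exp (2 * ‖z‖ * ∑' j, 1 / g j) * Lam g (M i) (h' * h') ≤
          Real.exp (2 * ‖z‖ * ∑' j, 1 / g j) * ((2 / g J + 2 * J * S1 * η) * L) :=
          mul_le_mul_of_nonneg_left hLam' (Real.exp_pos _).le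
      _ ≤ _ := mul_le_mul_of_nonneg_right h1 h2
  -- the sum
  obtain ⟨W, hW⟩ : ∃ W : ℂ, W = ∑ j ∈ range J, ((h.eval (g j) : ℝ) : ℂ) * aeval z (e j) := ⟨_, rfl⟩
  have hWn : ‖W‖ ^ 2 ≤ J * (S2 * L) := by
    have h1 : ‖W‖ ≤ ∑ j ∈ range J, |h.eval (g j)| * ‖aeval z (e j)‖ := by
      rw [hW]
      refine (norm_sum_le _ _).trans (sum_le_sum fun j _ => ?_)
      rw [norm_mul, Complex.norm_real, Real.norm_eq_abs]
    have h2 := sq_sum_le_card_mul_sum_sq (s := range J) (f := fun j => |h.eval (g j)| * ‖aeval z (e j)‖)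
    rw [card_range] at h2
    refine (pow_le_pow_left₀ (norm_nonneg _) h1 2).trans (h2.trans (mul_le_mul_of_nonneg_left ?_ (Nat.cast_nonneg _)))
    rw [hS2, sum_mul]
    refine sum_le_sum fun j hj => ?_
    rw [mul_pow, sq_abs]
    have h3 := hval j hj
    have h4 := heB j (mem_range.1 hj)
    have h5 : ‖aeval z (e j)‖ ^ 2 ≤ B j ^ 2 := pow_le_pow_left₀ (norm_nonneg _) h4 2
    calc h.eval (g j) ^ 2 * ‖aeval z (e j)‖ ^ 2 ≤ (Cj j * L) * B j ^ 2 :=
          mul_le_mul h3 h5 (sq_nonneg _) (mul_nonneg (hCj0 j) hL0)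
      _ = Cj j * B j ^ 2 * L := by ring
  have hev : aeval z h = aeval z h' + W := by
    rw [hh', hW, map_sub, map_sum]
    simp only [map_mul, aeval_C]
    rw [sub_add_eq_add_sub, add_sub_assoc]
    have e1 : ∀ j, (algebraMap ℝ ℂ) (h.eval (g j)) = ((h.eval (g j) : ℝ) : ℂ) := fun j => rfl
    simp only [e1, sub_self, add_zero]
  have hn : ‖aeval z h‖ ^ 2 ≤ 2 * ‖aeval z h'‖ ^ 2 + 2 * ‖W‖ ^ 2 := by
    rw [hev]
    have h1 := norm_add_le (aeval z h') W
    have h2 := pow_le_pow_left₀ (norm_nonneg _) h1 2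
    nlinarith [sq_nonneg (‖aeval z h'‖ - ‖W‖)]
  have h7 : 2 * (J * (S2 * δ)) ≤ ε / 4 := by
    have h8 : δ * (8 * J * S2 + 8) ≤ ε := ((lt_div_iff₀ (by positivity)).1 w3).le
    nlinarith [hδ0]
  rw [← hL]
  calc ‖aeval z h‖ ^ 2 * δ ≤ (2 * ‖aeval z h'‖ ^ 2 + 2 * ‖W‖ ^ 2) * δ := mul_le_mul_of_nonneg_right hn hδ0.le
    _ = 2 * (‖aeval z h'‖ ^ 2 * δ) + 2 * (‖W‖ ^ 2 * δ) := by ring
    _ ≤ 2 * (E * ((2 / g J + 2 * J * S1 * η) * L)) + 2 * ((J * (S2 * L)) * δ) := by gcongr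
    _ = (2 * (E * (2 / g J)) + 2 * (E * (2 * J * S1 * η)) + 2 * (J * (S2 * δ))) * L := by ring
    _ ≤ (ε / 4 + ε / 4 + ε / 4) * L := by gcongr
    _ ≤ ε * L := by nlinarith [mul_nonneg hε.le hL0]

end Pool.Agent.Q208.EX
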