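import Pool.Agent.Q240.EX.Stm
import Pool.Agent.Q280.CD2.Ext

set_option autoImplicit false

/-!
# Project EX of helper240: job Neg1 (the evaluation at the negative points)
-/

open Polynomial Filter Topology Finset MeasureTheory
open Pool.Agent.Q240.CD
open Pool.Agent.Q280.CD2 (summable_eval lam_add lam_C_mul lam_nonneg deg_mul gpos)

namespace Pool.Agent.Q208.EX

variable {g M : ℕ → ℝ} {n : ℕ}

/-- the extremal polynomial minimises the form -/
theorem ex_le (hPM : PM g M n) {t : ℝ} {q0 : ℝ[X]} (h0 : Ex g M n t q0) (p : ℝ[X]) (hp : p.natDegree ≤ n) :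
    p.eval t ^ 2 * Lam g M (q0 * q0) ≤ Lam g M (p * p) := by
  obtain ⟨s, hs⟩ : ∃ s : ℝ[X], s = p - C (p.eval t) * q0 := ⟨_, rfl⟩
  have hsd : s.natDegree ≤ n := by
    rw [hs]
    exact (natDegree_sub_le_of_le hp ((natDegree_C_mul_le _ _).trans h0.1)).trans (max_self _).le
  have hst : s.eval t = 0 := by
    rw [hs, eval_sub, eval_mul, eval_C, h0.2.1, mul_one, sub_self]
  have hor : Lam g M (q0 * s) = 0 := h0.2.2 s hsd hst
  have e : p * p = (C (p.eval t ^ 2) * (q0 * q0) + C (2 * p.eval t) * (q0 * s)) + s * s := by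
    have hp' : p = C (p.eval t) * q0 + s := by rw [hs]; ring
    have e1 : (C (p.eval t ^ 2) : ℝ[X]) = C (p.eval t) * C (p.eval t) := by rw [← C_mul, sq]
    have e2 : (C (2 * p.eval t) : ℝ[X]) = 2 * C (p.eval t) := by rw [C_mul]; rfl
    rw [e1, e2]
    obtain ⟨c, hc⟩ : ∃ c : ℝ[X], c = C (p.eval t) := ⟨_, rfl⟩
    rw [← hc] at hp' ⊢
    rw [hp']
    ring
  have d1 := deg_mul h0.1 h0.1
  have d2 := deg_mul h0.1 hsd
  have d3 := deg_mul hsd hsd
  have d4 : (C (p.eval t ^ 2) * (q0 * q0)).natDegree ≤ 2 * n := (natDegree_C_mul_le _ _).trans d1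
  have d5 : (C (2 * p.eval t) * (q0 * s)).natDegree ≤ 2 * n := (natDegree_C_mul_le _ _).trans d2
  rw [e, lam_add hPM _ _ ((natDegree_add_le_of_le d4 d5).trans (max_self _).le) d3, lam_add hPM _ _ d4 d5,
    lam_C_mul, lam_C_mul, hor, mul_zero, add_zero]
  have := lam_nonneg hPM s
  linarith

theorem lam_shift (τ : ℝ) (p : ℝ[X]) : Lam (fun j => g j + τ) M p = Lam g M (p.comp (X + C τ)) := by
  unfold Lam
  refine tsum_congr fun j => ?_
  simp only [eval_comp, eval_add, eval_X, eval_C]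

theorem pm_shift (hPM : PM g M n) {τ : ℝ} (hτ : 0 ≤ τ) : PM (fun j => g j + τ) M n where
  mono := fun i j hij => by
    have := hPM.mono hij
    show g i + τ < g j + τ
    linarith
  pos := by
    have := hPM.pos
    show 0 < g 0 + τ
    linarith
  nonneg := hPM.nonneg
  sum := by
    refine Summable.of_nonneg_of_le (fun j => ?_) (fun j => ?_) (hPM.sum.mul_left ((1 + τ) ^ (2 * n)))
    · have := gpos hPM j
      have := hPM.nonneg j
      positivity
    · have h1 := gpos hPM j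
      have h2 := hPM.nonneg j
      have h3 : 1 + (g j + τ) ≤ (1 + τ) * (1 + g j) := by nlinarith
      have h4 : (1 + (g j + τ)) ^ (2 * n) ≤ ((1 + τ) * (1 + g j)) ^ (2 * n) :=
        pow_le_pow_left₀ (by linarith) h3 _
      calc M j * (1 + (g j + τ)) ^ (2 * n) ≤ M j * ((1 + τ) * (1 + g j)) ^ (2 * n) :=
            mul_le_mul_of_nonneg_left h4 h2
        _ = (1 + τ) ^ (2 * n) * (M j * (1 + g j) ^ (2 * n)) := by rw [mul_pow]; ring
  dfn := fun q hq hq0 => by
    have hd : (q.comp (X + C τ)).natDegree = q.natDegree := by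
      rw [natDegree_comp, natDegree_X_add_C, mul_one]
    have hne : q.comp (X + C τ) ≠ 0 := by
      intro h0
      have h1 : (q.comp (X + C τ)).comp (X - C τ) = q := by
        rw [comp_assoc, add_comp, X_comp, C_comp, sub_add_cancel, comp_X]
      rw [h0, zero_comp] at h1
      exact hq0 h1.symm
    have h2 := hPM.dfn (q.comp (X + C τ)) (hd.le.trans hq) hne
    rw [lam_shift, mul_comp]
    exact h2

theorem ex_shift (τ : ℝ) {k : ℝ[X]} (hk : Ex g M n (-τ) k) :
    Ex (fun j => g j + τ) M n 0 (k.comp (X - C τ)) := by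
  have e0 : (X - C τ : ℝ[X]).comp (X + C τ) = X := by
    rw [sub_comp, X_comp, C_comp, add_sub_cancel_right]
  refine ⟨?_, ?_, fun r hr hr0 => ?_⟩
  · rw [natDegree_comp, natDegree_X_sub_C, mul_one]
    exact hk.1
  · rw [eval_comp, eval_sub, eval_X, eval_C, zero_sub]
    exact hk.2.1
  · rw [lam_shift, mul_comp, comp_assoc, e0, comp_X]
    refine hk.2.2 _ ?_ ?_
    · rw [natDegree_comp, natDegree_X_add_C, mul_one]
      exact hr
    · rw [eval_comp, eval_add, eval_X, eval_C, neg_add_cancel]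
      exact hr0

/-- the value at zero of the extremal polynomial of a negative point -/
theorem ex_zero_ge (hZer : S_Zer) (hPM : PM g M n) (hs : Summable fun j => 1 / g j) {τ : ℝ} (hτ : 0 ≤ τ) {k : ℝ[X]}
    (hk : Ex g M n (-τ) k) : Real.exp (-(τ * ∑' j, 1 / g j)) ≤ k.eval 0 := by
  have hg := gpos hPM
  obtain ⟨k', hk'⟩ : ∃ k' : ℝ[X], k' = k.comp (X - C τ) := ⟨_, rfl⟩
  have hex := ex_shift τ hk
  rw [← hk'] at hex
  obtain ⟨c, A, hA, hprod, -, -, hc⟩ := hZer _ M n (pm_shift hPM hτ) 0 k'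
    (fun j => by have := hg j; show g j + τ ≠ 0; linarith [this]) hex
  have hc' : ∀ j, j < k'.natDegree → g j + τ < c j := hc rfl
  obtain ⟨d, hd⟩ : ∃ d, d = k'.natDegree := ⟨_, rfl⟩
  rw [← hd] at hprod hc'
  have hcp : ∀ j ∈ range d, 0 < c j := fun j hj => by
    have h1 := hc' j (mem_range.1 hj)
    have h2 := hg j
    linarith
  have hev : ∀ x : ℝ, k'.eval x = A * ∏ j ∈ range d, (x - c j) := fun x => by
    rw [hprod, eval_mul, eval_C, eval_prod]
    simp only [eval_sub, eval_X, eval_C]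
  have h1 : A * ∏ j ∈ range d, (0 - c j) = 1 := by
    rw [← hev]
    exact hex.2.1
  have h2 : k.eval 0 = A * ∏ j ∈ range d, (τ - c j) := by
    rw [← hev, hk', eval_comp, eval_sub, eval_X, eval_C, sub_self]
  have h3 : k.eval 0 = ∏ j ∈ range d, (1 - τ / c j) := by
    have h4 : ∏ j ∈ range d, (τ - c j) = (∏ j ∈ range d, (1 - τ / c j)) * ∏ j ∈ range d, (0 - c j) := by
      rw [← prod_mul_distrib]
      refine prod_congr rfl fun j hj => ?_
      have := (hcp j hj).ne'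
      field_simp
      ring
    rw [h2, h4]
    calc A * ((∏ j ∈ range d, (1 - τ / c j)) * ∏ j ∈ range d, (0 - c j)) =
          (∏ j ∈ range d, (1 - τ / c j)) * (A * ∏ j ∈ range d, (0 - c j)) := by ring
      _ = _ := by rw [h1, mul_one]
  have h5 : ∀ j ∈ range d, Real.exp (-(τ * (1 / g j))) ≤ 1 - τ / c j := by
    intro j hj
    have hgj := hg j
    have hcj := hc' j (mem_range.1 hj)
    have h6 : τ / c j ≤ τ / (g j + τ) := by
      have : 0 < g j + τ := by linarith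
      gcongr
    have h7 : 1 - τ / (g j + τ) = (1 + τ * (1 / g j))⁻¹ := by
      have : g j + τ ≠ 0 := by linarith
      have h8 : 1 + τ * (1 / g j) ≠ 0 := by
        have : 0 < 1 + τ * (1 / g j) := by positivity
        exact this.ne'
      refine eq_inv_of_mul_eq_one_left ?_
      field_simp
      ring
    have h8 : Real.exp (-(τ * (1 / g j))) ≤ (1 + τ * (1 / g j))⁻¹ := by
      rw [Real.exp_neg]
      have h9 : 1 + τ * (1 / g j) ≤ Real.exp (τ * (1 / g j)) := by
        have := Real.add_one_le_exp (τ * (1 / g j))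
        linarith
      have h10 : 0 < 1 + τ * (1 / g j) := by positivity
      exact inv_anti₀ h10 h9
    linarith
  rw [h3]
  calc Real.exp (-(τ * ∑' j, 1 / g j)) ≤ Real.exp (∑ j ∈ range d, -(τ * (1 / g j))) := by
        rw [Real.exp_le_exp, sum_neg_distrib, ← mul_sum, neg_le_neg_iff]
        refine mul_le_mul_of_nonneg_left ?_ hτ
        exact hs.sum_le_tsum _ fun j _ => by have := hg j; positivity
    _ = ∏ j ∈ range d, Real.exp (-(τ * (1 / g j))) := Real.exp_sum _ _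
    _ ≤ _ := prod_le_prod (fun j _ => (Real.exp_pos _).le) h5

/-- JOB EX-Neg1. -/
theorem neg1 (hZer : S_Zer) : Pool.Agent.Q240.EX.S_Neg1 := by
  intro g M n hPM hs q0 h0 q τ hq hτ
  obtain ⟨k, hk⟩ := Pool.Agent.Q280.CD2.ext g M n hPM (-τ)
  have h1 := ex_le hPM hk q hq
  have h2 := ex_le hPM h0 k hk.1
  have h3 := ex_zero_ge hZer hPM hs hτ hk
  obtain ⟨S, hS⟩ : ∃ S, S = ∑' j, 1 / g j := ⟨_, rfl⟩
  obtain ⟨δ, hδ⟩ : ∃ δ, δ = Lam g M (q0 * q0) := ⟨_, rfl⟩
  obtain ⟨κ, hκ⟩ : ∃ κ, κ = Lam g M (k * k) := ⟨_, rfl⟩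
  obtain ⟨Λ, hΛ⟩ : ∃ Λ, Λ = Lam g M (q * q) := ⟨_, rfl⟩
  have hδ0 : 0 ≤ δ := by rw [hδ]; exact lam_nonneg hPM q0
  rw [← hS] at h3 ⊢
  rw [← hδ] at h2 ⊢
  rw [← hκ] at h1 h2
  rw [← hΛ] at h1 ⊢
  have h4 : Real.exp (2 * τ * S) * Real.exp (-(τ * S)) ^ 2 = 1 := by
    rw [sq, ← Real.exp_add, ← Real.exp_add, ← Real.exp_zero]
    congr 1
    ring
  have h5 : Real.exp (-(τ * S)) ^ 2 ≤ k.eval 0 ^ 2 := pow_le_pow_left₀ (Real.exp_pos _).le h3 2
  calc q.eval (-τ) ^ 2 * δ = Real.exp (2 * τ * S) * (q.eval (-τ) ^ 2 * (Real.exp (-(τ * S)) ^ 2 * δ)) := by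
        calc q.eval (-τ) ^ 2 * δ = (Real.exp (2 * τ * S) * Real.exp (-(τ * S)) ^ 2) * (q.eval (-τ) ^ 2 * δ) := by
              rw [h4, one_mul]
          _ = _ := by ring
    _ ≤ Real.exp (2 * τ * S) * (q.eval (-τ) ^ 2 * (k.eval 0 ^ 2 * δ)) := by gcongr
    _ ≤ Real.exp (2 * τ * S) * (q.eval (-τ) ^ 2 * κ) := by gcongr
    _ ≤ Real.exp (2 * τ * S) * Λ := by gcongr

end Pool.Agent.Q208.EX
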