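import Pool.Agent.Q270.EN.Stm6
import Pool.Agent.Helper923.HLower

/-!
# Project EX (helper270), job SMO: smooth numbers, uniformly in the shift
-/

set_option autoImplicit false

namespace Pool.Agent.Q208.EX

open Finset Filter Topology
open Pool.Agent.Helper923.HRho (rho rho_cont rho_anti rho_le_one rho_one rho_pos)
open Pool.Agent.Helper923.HCount (F free F_empty kap)
open Pool.Agent.Helper923.HUpperQ (Pr Gs mem_Pr upper)
open Pool.Agent.Helper923.HMertens (mertens_ratio)
open Pool.Agent.Helper923.HB (mm rr)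
open Pool.Agent.Helper923.HKey (E)
open Pool.Agent.Helper923.HLower (lower)
open Pool.Agent.Q270.EN (smc S_SMO)

theorem smc_eq_F (x y : ℕ) : smc x 0 y = F (Pr y x) x := by
  unfold smc F free
  congr 1
  apply filter_congr
  intro m hm
  rw [mem_Icc] at hm
  rw [add_zero]
  constructor
  · intro h p hp hd
    rw [mem_Pr] at hp
    have := h p (Nat.mem_primeFactors.2 ⟨hp.2, hd, by omega⟩)
    omega
  · intro h p hp
    by_contra hc
    have hp' := Nat.mem_primeFactors.1 hp
    exact h p (mem_Pr.2 ⟨⟨by omega, (Nat.le_of_dvd (by omega) hp'.2.1).trans hm.2⟩, hp'.1⟩) hp'.2.1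

theorem smc_add (N h y : ℕ) : smc N h y + smc h 0 y = smc (N + h) 0 y := by
  classical
  unfold smc
  have h1 : (Icc 1 (N + h)).filter (fun n => ∀ p ∈ (n + 0).primeFactors, p ≤ y) =
     ((Icc 1 N).filter (fun n => ∀ p ∈ (n + h).primeFactors, p ≤ y)).image (· + h) ∪
     (Icc 1 h).filter (fun n => ∀ p ∈ (n + 0).primeFactors, p ≤ y) := by
    ext m
    simp only [mem_union, mem_image, mem_filter, mem_Icc, add_zero]
    constructor
    · rintro ⟨⟨h1, h2⟩, h3⟩
      by_cases hm : m ≤ h
      · right; exact ⟨⟨h1, hm⟩, h3⟩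
      · left
        refine ⟨m - h, ⟨⟨by omega, by omega⟩, ?_⟩, by omega⟩
        rwa [Nat.sub_add_cancel (by omega)]
    · rintro (⟨a, ⟨⟨h1, h2⟩, h3⟩, rfl⟩ | ⟨⟨h1, h2⟩, h3⟩)
      · exact ⟨⟨by omega, by omega⟩, h3⟩
      · exact ⟨⟨h1, by omega⟩, h3⟩
  have hd : Disjoint
     (((Icc 1 N).filter (fun n => ∀ p ∈ (n + h).primeFactors, p ≤ y)).image (· + h))
     ((Icc 1 h).filter (fun n => ∀ p ∈ (n + 0).primeFactors, p ≤ y)) := by
    rw [disjoint_left]
    intro m hm hm'
    simp only [mem_image, mem_filter, mem_Icc] at hm hm'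
    obtain ⟨a, ha, rfl⟩ := hm
    omega
  have h2 := card_union_of_disjoint hd
  have h3 : (((Icc 1 N).filter (fun n => ∀ p ∈ (n + h).primeFactors, p ≤ y)).image (· + h)).card =
      ((Icc 1 N).filter (fun n => ∀ p ∈ (n + h).primeFactors, p ≤ y)).card :=
    card_image_of_injective _ (add_left_injective h)
  rw [h3] at h2
  rw [h1]
  convert h2.symm

theorem smc_mono (N h : ℕ) {y y' : ℕ} (hy : y ≤ y') : smc N h y ≤ smc N h y' := by
  unfold smc
  apply card_le_card
  intro n hn
  rw [mem_filter] at hn ⊢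
  exact ⟨hn.1, fun p hp => (hn.2 p hp).trans hy⟩

theorem smc_le (N h y : ℕ) : smc N h y ≤ N := by
  unfold smc
  refine (card_filter_le _ _).trans ?_
  simp

theorem Gs_le {C : ℝ} (hC : ∀ a b : ℕ, 2 ≤ a → a ≤ b →
    |∑ p ∈ (Finset.Ioc a b).filter Nat.Prime, (1 : ℝ) / p
      - Real.log (Real.log b / Real.log a)| ≤ C / Real.log a) {Y x : ℕ} (hY : 2 ≤ Y) (hx : Y ≤ x) :
    Real.exp (Gs Y x) ≤ Real.log x / Real.log Y * Real.exp (C / Real.log Y) ∧
    Real.log x / Real.log Y * Real.exp (-(C / Real.log Y)) ≤ Real.exp (Gs Y x) := by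
  have h1 := abs_le.1 (hC Y x hY hx)
  have hlY : 0 < Real.log Y := Real.log_pos (by exact_mod_cast (by omega : 1 < Y))
  have hlx : 0 < Real.log x := Real.log_pos (by exact_mod_cast (by omega : 1 < x))
  have h2 : Real.log x / Real.log Y = Real.exp (Real.log (Real.log x / Real.log Y)) := by
    rw [Real.exp_log (by positivity)]
  have h3 : Gs Y x = ∑ p ∈ (Finset.Ioc Y x).filter Nat.Prime, (1 : ℝ) / p := rfl
  constructor
  · rw [h2, ← Real.exp_add]
    apply Real.exp_le_exp.2
    linarith [h1.2]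
  · rw [h2, ← Real.exp_add]
    apply Real.exp_le_exp.2
    linarith [h1.1]

theorem psi_bounds : ∃ C : ℝ, 0 ≤ C ∧
    (∀ ε : ℝ, 0 < ε → ∃ W₀ : ℕ, ∀ Y : ℕ, W₀ ≤ Y → ∀ N x : ℕ, x ≤ N → Y ≤ N →
      (x : ℝ) * (rho (Real.log N / Real.log Y * Real.exp (C / Real.log Y)) - ε) ≤ smc x 0 Y) ∧
    (∀ c ε : ℝ, 0 < ε → ∃ W₀ : ℕ, ∀ Y : ℕ, W₀ ≤ Y → ∀ x : ℕ, Y ≤ x →
      Real.log x / Real.log Y ≤ c →
      (smc x 0 Y : ℝ) ≤ x * (rho (Real.log x / Real.log Y * Real.exp (-(C / Real.log Y))) + ε)) := by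
  classical
  obtain ⟨C, hC0, hC⟩ := mertens_ratio
  refine ⟨C, hC0, ?_, ?_⟩
  · intro ε hε
    obtain ⟨W₀, hW₀⟩ := lower ∅ (by simp) (by simp) 1 le_rfl (by simp) ε hε
    refine ⟨max W₀ 2, fun Y hY N x hxN hYN => ?_⟩
    have hY2 : 2 ≤ Y := (le_max_right _ _).trans hY
    have hx0 : (0 : ℝ) ≤ x := Nat.cast_nonneg _
    rw [smc_eq_F]
    rcases le_or_gt x Y with hxY | hxY
    · have h1 : Pr Y x = ∅ := by
        ext p
        rw [mem_Pr]
        simp only [notMem_empty, iff_false]
        rintro ⟨⟨h1, h2⟩, _⟩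
        omega
      rw [h1, F_empty]
      have h2 := rho_le_one (Real.log N / Real.log Y * Real.exp (C / Real.log Y))
      nlinarith
    · have h1 := hW₀ Y ((le_max_left _ _).trans hY) (Pr Y x)
        (fun p hp => ⟨(mem_Pr.1 hp).2, (mem_Pr.1 hp).1.1⟩) x hxY.le
      rw [empty_union] at h1
      have h2 : kap ∅ = 1 := by simp [kap]
      rw [h2, one_mul] at h1
      refine le_trans ?_ h1
      apply mul_le_mul_of_nonneg_left _ hx0
      have h3 : rho (Real.log N / Real.log Y * Real.exp (C / Real.log Y)) ≤ mm (Pr Y x) x := by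
        unfold mm
        apply rho_anti
        have h4 : E (rr (Pr Y x)) (x + 1) ≤ Real.exp (Gs Y x) := by
          unfold E Pool.Agent.Helper923.HKey.W Gs rr
          apply Real.exp_le_exp.2
          rw [← sum_filter]
          apply sum_le_sum_of_subset_of_nonneg
          · intro p hp
            exact (mem_filter.1 hp).2
          · intro p _ _; positivity
        refine h4.trans ((Gs_le hC hY2 hxY.le).1.trans ?_)
        have hlY : 0 < Real.log Y := Real.log_pos (by exact_mod_cast (by omega : 1 < Y))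
        have hlx : Real.log x ≤ Real.log N := by
          apply Real.log_le_log
          · exact_mod_cast (by omega : 0 < x)
          · exact_mod_cast hxN
        gcongr
      linarith
  · intro c ε hε
    have hl2 : 0 < Real.log 2 := Real.log_pos (by norm_num)
    have hc' : 0 < |Real.log c| + C / Real.log 2 + 1 := by positivity
    obtain ⟨W₀, hW₀⟩ := upper (|Real.log c| + C / Real.log 2 + 1) hc' ε hε
    refine ⟨max W₀ 2, fun Y hY x hx hc => ?_⟩
    have hY2 : 2 ≤ Y := (le_max_right _ _).trans hY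
    have hlY : 0 < Real.log Y := Real.log_pos (by exact_mod_cast (by omega : 1 < Y))
    have hlx : 0 < Real.log x := Real.log_pos (by exact_mod_cast (by omega : 1 < x))
    have h2Y : Real.log 2 ≤ Real.log Y := by
      apply Real.log_le_log (by norm_num)
      exact_mod_cast hY2
    rw [smc_eq_F]
    have h1 := hW₀ Y x ((le_max_left _ _).trans hY) hx (by
      have h2 := (abs_le.1 (hC Y x hY2 hx)).2
      have h3 : Gs Y x = ∑ p ∈ (Finset.Ioc Y x).filter Nat.Prime, (1 : ℝ) / p := rfl
      have h4 : Real.log (Real.log x / Real.log Y) ≤ Real.log c := by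
        apply Real.log_le_log (by positivity) hc
      have h5 : C / Real.log Y ≤ C / Real.log 2 := by
        apply div_le_div_of_nonneg_left hC0 hl2 h2Y
      have h6 := le_abs_self (Real.log c)
      linarith)
    refine h1.trans ?_
    apply mul_le_mul_of_nonneg_left _ (Nat.cast_nonneg _)
    have h2 : rho (Real.exp (Gs Y x)) ≤
        rho (Real.log x / Real.log Y * Real.exp (-(C / Real.log Y))) :=
      rho_anti (Gs_le hC hY2 hx).2
    linarith

theorem floor_tendsto {v : ℝ} (hv : 1 < v) :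
    Tendsto (fun N : ℕ => ⌊(N : ℝ) ^ (1 / v)⌋₊) atTop atTop := by
  have h1 : Tendsto (fun x : ℝ => x ^ (1 / v)) atTop atTop :=
    tendsto_rpow_atTop (by positivity)
  exact tendsto_nat_floor_atTop.comp (h1.comp tendsto_natCast_atTop_atTop)

theorem log_floor : Tendsto (fun x : ℝ => Real.log x / Real.log ⌊x⌋₊) atTop (𝓝 1) := by
  have h2 : Tendsto (fun x : ℝ => 1 + Real.log (⌊x⌋₊ / x) / Real.log x) atTop (𝓝 (1 + 0)) := by
    apply Tendsto.const_add
    have h3 : Tendsto (fun x : ℝ => Real.log (⌊x⌋₊ / x)) atTop (𝓝 (Real.log 1)) :=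
      (Real.continuousAt_log (by norm_num)).tendsto.comp (tendsto_nat_floor_div_atTop)
    exact h3.div_atTop Real.tendsto_log_atTop
  rw [add_zero] at h2
  have h4 := h2.inv₀ one_ne_zero
  rw [inv_one] at h4
  refine h4.congr' ?_
  filter_upwards [eventually_ge_atTop 2] with x hx
  have h5 : (0 : ℝ) < ⌊x⌋₊ := by exact_mod_cast Nat.floor_pos.2 (by linarith)
  rw [Real.log_div h5.ne' (by linarith)]
  have h6 : Real.log x ≠ 0 := (Real.log_pos (by linarith)).ne'
  have h7 : 1 + (Real.log ⌊x⌋₊ - Real.log x) / Real.log x = Real.log ⌊x⌋₊ / Real.log x := by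
    field_simp
    ring
  rw [h7, inv_div]

theorem ratio_tendsto {v : ℝ} (hv : 1 < v) :
    Tendsto (fun N : ℕ => Real.log N / Real.log (⌊(N : ℝ) ^ (1 / v)⌋₊ : ℕ)) atTop (𝓝 v) := by
  have h0 : 0 < v := by linarith
  have h1 : Tendsto (fun N : ℕ => (N : ℝ) ^ (1 / v)) atTop atTop :=
    (tendsto_rpow_atTop (by positivity)).comp tendsto_natCast_atTop_atTop
  have h2 := (log_floor.comp h1).const_mul v
  rw [mul_one] at h2
  refine h2.congr' ?_
  filter_upwards [eventually_ge_atTop 1] with N hN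
  have hN0 : (0 : ℝ) < N := by exact_mod_cast hN
  simp only [Function.comp]
  rw [Real.log_rpow hN0]
  field_simp

theorem small_tendsto {C : ℝ} {y : ℕ → ℕ} (hy : Tendsto y atTop atTop) :
    Tendsto (fun N : ℕ => C / Real.log (y N)) atTop (𝓝 0) :=
  tendsto_const_nhds.div_atTop
    ((Real.tendsto_log_atTop.comp tendsto_natCast_atTop_atTop).comp hy)

theorem t_SMO : S_SMO := by
  obtain ⟨C, hC0, hlow, hup⟩ := psi_bounds
  constructor
  · intro v δ hv hδ
    have hv0 : 0 < v := by linarith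
    obtain ⟨W₁, hW₁⟩ := hlow (δ / 6) (by positivity)
    obtain ⟨W₂, hW₂⟩ := hup (2 * (v + 1)) (δ / 6) (by positivity)
    have hY := floor_tendsto hv
    have hr := ratio_tendsto hv
    have hs : Tendsto (fun N : ℕ => C / Real.log (⌊(N : ℝ) ^ (1 / v)⌋₊ : ℕ)) atTop (𝓝 0) :=
      small_tendsto hY
    have e1 : Tendsto (fun N : ℕ => rho (Real.log N / Real.log (⌊(N : ℝ) ^ (1 / v)⌋₊ : ℕ) *
        Real.exp (C / Real.log (⌊(N : ℝ) ^ (1 / v)⌋₊ : ℕ)))) atTop (𝓝 (rho v)) := by
      have h1 := hr.mul ((Real.continuous_exp.tendsto 0).comp hs)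
      rw [Real.exp_zero, mul_one] at h1
      exact (rho_cont.tendsto v).comp h1
    have e2 : Tendsto (fun N : ℕ => rho (v *
        Real.exp (-(C / Real.log (⌊(N : ℝ) ^ (1 / v)⌋₊ : ℕ))))) atTop (𝓝 (rho v)) := by
      have h1 := ((Real.continuous_exp.tendsto _).comp hs.neg).const_mul v
      rw [neg_zero, Real.exp_zero, mul_one] at h1
      exact (rho_cont.tendsto v).comp h1
    filter_upwards [e1.eventually_const_lt (show rho v - δ / 6 < rho v by linarith),
      e2.eventually_lt_const (show rho v < rho v + δ / 6 by linarith),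
      hr.eventually_lt_const (show v < v + 1 by linarith),
      hY.eventually_ge_atTop (max (max W₁ W₂) 2), eventually_ge_atTop 2] with N h1 h2 h3 h4 h5
    intro h y hh hy
    obtain ⟨Y, hYdef⟩ : ∃ Y : ℕ, Y = ⌊(N : ℝ) ^ (1 / v)⌋₊ := ⟨_, rfl⟩
    rw [← hYdef] at h1 h2 h3 h4
    have hYW1 : W₁ ≤ Y := ((le_max_left _ _).trans (le_max_left _ _)).trans h4
    have hYW2 : W₂ ≤ Y := ((le_max_right _ _).trans (le_max_left _ _)).trans h4
    have hY2 : 2 ≤ Y := (le_max_right _ _).trans h4
    have hN1 : (1 : ℝ) ≤ N := by exact_mod_cast (by omega : 1 ≤ N)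
    have hN0 : (0 : ℝ) < N := by linarith
    have hYr : (Y : ℝ) ≤ (N : ℝ) ^ (1 / v) := by
      rw [hYdef]
      exact Nat.floor_le (by positivity)
    have hYN : Y ≤ N := by
      have h6 : (N : ℝ) ^ (1 / v) ≤ (N : ℝ) ^ (1 : ℝ) := by
        apply Real.rpow_le_rpow_of_exponent_le hN1
        rw [div_le_one hv0]
        exact hv.le
      rw [Real.rpow_one] at h6
      exact_mod_cast hYr.trans h6
    have hlY : 0 < Real.log Y := Real.log_pos (by exact_mod_cast (by omega : 1 < Y))
    have hlN : 0 < Real.log N := Real.log_pos (by exact_mod_cast (by omega : 1 < N))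
    have hYlog : Real.log Y ≤ Real.log N / v := by
      have h6 := Real.log_le_log (by exact_mod_cast (by omega : 0 < Y)) hYr
      rw [Real.log_rpow hN0] at h6
      calc Real.log Y ≤ 1 / v * Real.log N := h6
        _ = _ := by ring
    have hyY : y ≤ Y := by
      rw [hYdef]
      exact Nat.le_floor hy
    have hmono : (smc N h y : ℝ) ≤ smc N h Y := by exact_mod_cast smc_mono N h hyY
    have hadd : (smc N h Y : ℝ) + smc h 0 Y = smc (N + h) 0 Y := by
      exact_mod_cast smc_add N h Y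
    have hL := hW₁ Y hYW1 N h hh hYN
    have hlx : Real.log ((N + h : ℕ) : ℝ) ≤ 2 * Real.log N := by
      have h6 : ((N + h : ℕ) : ℝ) ≤ N ^ 2 := by
        have h7 : N + h ≤ N ^ 2 := by nlinarith
        exact_mod_cast h7
      have h7 := Real.log_le_log (by exact_mod_cast (by omega : 0 < N + h)) h6
      rw [Real.log_pow] at h7
      exact_mod_cast h7
    have hlx2 : Real.log N ≤ Real.log ((N + h : ℕ) : ℝ) := by
      apply Real.log_le_log hN0
      push_cast
      linarith [(Nat.cast_nonneg h : (0 : ℝ) ≤ h)]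
    have hU := hW₂ Y hYW2 (N + h) (by omega) (by
      rw [div_le_iff₀ hlY]
      rw [div_lt_iff₀ hlY] at h3
      nlinarith)
    have hvle : v ≤ Real.log ((N + h : ℕ) : ℝ) / Real.log Y := by
      rw [le_div_iff₀ hlY]
      rw [le_div_iff₀ hv0] at hYlog
      linarith
    have hrho : rho (Real.log ((N + h : ℕ) : ℝ) / Real.log Y * Real.exp (-(C / Real.log Y))) ≤
        rho (v * Real.exp (-(C / Real.log Y))) := by
      apply rho_anti
      apply mul_le_mul_of_nonneg_right hvle (Real.exp_pos _).le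
    have hh0 : (0 : ℝ) ≤ h := Nat.cast_nonneg _
    have hhN : (h : ℝ) ≤ N := by exact_mod_cast hh
    have hU2 : (smc (N + h) 0 Y : ℝ) ≤ (N + h) * (rho v + δ / 3) := by
      refine hU.trans ?_
      push_cast
      apply mul_le_mul_of_nonneg_left _ (by positivity)
      push_cast at hrho
      linarith
    have hL2 : (h : ℝ) * (rho v - δ / 3) ≤ smc h 0 Y := by
      refine le_trans ?_ hL
      apply mul_le_mul_of_nonneg_left _ hh0
      linarith
    nlinarith
  · intro v δ hv hδ h
    have hv0 : 0 < v := by linarith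
    obtain ⟨W₁, hW₁⟩ := hlow (δ / 3) (by positivity)
    have hY : Tendsto (fun N : ℕ => ⌈(N : ℝ) ^ (1 / v)⌉₊) atTop atTop := by
      apply tendsto_atTop_mono (fun N => Nat.floor_le_ceil _) (floor_tendsto hv)
    have hs : Tendsto (fun N : ℕ => C / Real.log (⌈(N : ℝ) ^ (1 / v)⌉₊ : ℕ)) atTop (𝓝 0) :=
      small_tendsto hY
    have e2 : Tendsto (fun N : ℕ => rho (v *
        Real.exp (C / Real.log (⌈(N : ℝ) ^ (1 / v)⌉₊ : ℕ)))) atTop (𝓝 (rho v)) := by
      have h1 := ((Real.continuous_exp.tendsto _).comp hs).const_mul v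
      rw [Real.exp_zero, mul_one] at h1
      exact (rho_cont.tendsto v).comp h1
    have e3 : Tendsto (fun N : ℕ => (N : ℝ)) atTop atTop := tendsto_natCast_atTop_atTop
    filter_upwards [e2.eventually_const_lt (show rho v - δ / 3 < rho v by linarith),
      hY.eventually_ge_atTop (max W₁ 2), eventually_ge_atTop 2,
      e3.eventually_ge_atTop (3 * h / δ)] with N h1 h4 h5 h6
    intro y hy
    obtain ⟨Y, hYdef⟩ : ∃ Y : ℕ, Y = ⌈(N : ℝ) ^ (1 / v)⌉₊ := ⟨_, rfl⟩
    rw [← hYdef] at h1 h4
    have hYW1 : W₁ ≤ Y := (le_max_left _ _).trans h4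
    have hY2 : 2 ≤ Y := (le_max_right _ _).trans h4
    have hN1 : (1 : ℝ) ≤ N := by exact_mod_cast (by omega : 1 ≤ N)
    have hN0 : (0 : ℝ) < N := by linarith
    have hYN : Y ≤ N := by
      have h6 : (N : ℝ) ^ (1 / v) ≤ (N : ℝ) ^ (1 : ℝ) := by
        apply Real.rpow_le_rpow_of_exponent_le hN1
        rw [div_le_one hv0]
        exact hv.le
      rw [Real.rpow_one] at h6
      rw [hYdef]
      exact Nat.ceil_le.2 h6
    have hYr : (N : ℝ) ^ (1 / v) ≤ Y := by
      rw [hYdef]
      exact Nat.le_ceil _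
    have hlY : 0 < Real.log Y := Real.log_pos (by exact_mod_cast (by omega : 1 < Y))
    have hYlog : Real.log N / v ≤ Real.log Y := by
      have h6 := Real.log_le_log (by positivity) hYr
      rw [Real.log_rpow hN0] at h6
      calc Real.log N / v = 1 / v * Real.log N := by ring
        _ ≤ _ := h6
    have hyY : Y ≤ y := by
      rw [hYdef]
      exact Nat.ceil_le.2 hy
    have hL := hW₁ Y hYW1 N N le_rfl hYN
    have hadd : (smc N h y : ℝ) + smc h 0 y = smc (N + h) 0 y := by
      exact_mod_cast smc_add N h y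
    have hle : (smc h 0 y : ℝ) ≤ h := by exact_mod_cast smc_le h 0 y
    have hmono : (smc N 0 Y : ℝ) ≤ smc N 0 y := by exact_mod_cast smc_mono N 0 hyY
    have hmono2 : (smc N 0 y : ℝ) ≤ smc (N + h) 0 y := by
      have : smc N 0 y ≤ smc (N + h) 0 y := by
        unfold smc
        apply card_le_card
        apply filter_subset_filter
        intro n hn
        rw [mem_Icc] at hn ⊢
        omega
      exact_mod_cast this
    have hrho : rho (v * Real.exp (C / Real.log Y)) ≤
        rho (Real.log N / Real.log Y * Real.exp (C / Real.log Y)) := by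
      apply rho_anti
      apply mul_le_mul_of_nonneg_right _ (Real.exp_pos _).le
      rw [div_le_iff₀ hlY]
      rw [div_le_iff₀ hv0] at hYlog
      linarith
    have h7 : (h : ℝ) ≤ δ / 3 * N := by
      rw [div_le_iff₀ hδ] at h6
      linarith
    have h8 : (N : ℝ) * (rho v - 2 * δ / 3) ≤ smc N 0 Y := by
      refine le_trans ?_ hL
      apply mul_le_mul_of_nonneg_left _ hN0.le
      linarith
    nlinarith

end Pool.Agent.Q208.EX
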