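import Pool.Agent.Q38.EX.XtP

set_option autoImplicit false

/-!
# Project EX: `S_XtE`, existence of the extremal functions for every degree
-/

open Filter Topology
open scoped ComplexConjugate

namespace Pool.Agent.Q208.EX

open Pool.Agent.Q240.EX Pool.Agent.Q38.EX

theorem xte_lam (hRH : RHy) {a : ℝ} (ha : 0 < a) : ∃ l : ℝ, 0 < l ∧ ∀ f : ℝ → ℂ, Y23.Hd a f → l * Y23.N2 f ≤ Y23.QQ f := by
  obtain ⟨g, hg, hN⟩ := Y23.exists_ground ha
  refine ⟨Y23.GM a, ?_, fun f hf => ?_⟩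
  · by_contra hcon
    push Not at hcon
    have h1 : Y23.QQ g = Y23.GM a * Y23.N2 g := by
      have := hg.2
      unfold Y23.bq at this
      linarith
    have h2 : Y23.QQ g ≤ 0 := by
      rw [h1]
      exact mul_nonpos_of_nonpos_of_nonneg hcon hN.le
    have hgt : Y23.G.F.Hn a ⊤ g := ⟨hg.1.1, hg.1.2, fun _ hk => absurd hk not_top_lt⟩
    have h3 := Pool.Agent.Q24.CD.posZ hRH a ⊤ g ha hgt h2
    rw [Y23.N2_zero_of_TT hg.1.1 h3] at hN
    exact lt_irrefl _ hN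
  · have := Y23.bq_nonneg ha hf
    unfold Y23.bq at this
    linarith

/-- the form is bounded from above by the weighted norm, and from below by a multiple of it -/
theorem xte_equiv (hRH : RHy) {a : ℝ} (ha : 0 < a) : ∃ c C : ℝ, 0 < c ∧ 0 < C ∧ ∀ f : ℝ → ℂ, Y23.Hd a f →
    Y23.LL f ≤ c * Y23.QQ f ∧ Y23.QQ f ≤ C * Y23.LL f := by
  obtain ⟨l, hl, hlow⟩ := xte_lam hRH ha
  obtain ⟨C, hC, hco⟩ := Y23.coer ha
  obtain ⟨C1, hC1, hSS⟩ := Y23.dom_of_Hd ha
  have hpi := Real.pi_pos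
  refine ⟨4 * Real.pi + C / l, C1, by positivity, hC1, fun f hf => ⟨?_, ?_⟩⟩
  · have h1 := hco f hf
    have h2 := hlow f hf
    have h3 : Y23.N2 f ≤ Y23.QQ f / l := by
      rw [le_div_iff₀ hl]
      linarith
    have h4 : C * Y23.N2 f ≤ C * (Y23.QQ f / l) := mul_le_mul_of_nonneg_left h3 hC.le
    calc Y23.LL f ≤ 4 * Real.pi * Y23.QQ f + C * Y23.N2 f := h1
      _ ≤ 4 * Real.pi * Y23.QQ f + C * (Y23.QQ f / l) := by linarith
      _ = (4 * Real.pi + C / l) * Y23.QQ f := by ring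
  · rw [Y23.QQ_eq_SS hRH]
    exact (hSS f hf).2

/-- there are functions with the value `1` -/
theorem xte_one {a : ℝ} (ha : 0 < a) (ν : ℕ∞) : ∃ f : ℝ → ℂ, Y23.G.F.Hn a ν f ∧ Y23.TT f 0 = 1 := by
  have h0 : Y23.G.F.nd a 0 = 0 := by
    unfold Y23.G.F.nd
    simp
  have h1 : Y23.TT (Y23.G.F.ek a 0) 0 = 2 * a := by
    have := Y23.G.F.TT_ek_self ha 0
    rw [h0] at this
    exact this
  have ha' : (2 * (a : ℂ)) ≠ 0 := mul_ne_zero two_ne_zero (by exact_mod_cast ha.ne')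
  refine ⟨fun x => (2 * (a : ℂ))⁻¹ * Y23.G.F.ek a 0 x, (Y23.G.F.Hn_ek ha (by simp)).smul _, ?_⟩
  rw [Y23.TT_smul, h1, inv_mul_cancel₀ ha']

/-- the parallelogram law together with the minimality: a function of the minimising sequence -/
theorem xte_par {a : ℝ} (ha : 0 < a) {ν : ℕ∞} {d : ℝ}
    (hd : ∀ f : ℝ → ℂ, Y23.G.F.Hn a ν f → Y23.TT f 0 = 1 → d ≤ Y23.QQ f) {f g : ℝ → ℂ} (hf : Y23.G.F.Hn a ν f)
    (hg : Y23.G.F.Hn a ν g) (hf1 : Y23.TT f 0 = 1) (hg1 : Y23.TT g 0 = 1) :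
    Y23.QQ (fun x => f x - g x) ≤ 2 * Y23.QQ f + 2 * Y23.QQ g - 4 * d := by
  have h1 := QQ_line ha hf.hd hg.hd (-1)
  have h2 := QQ_line ha hf.hd hg.hd 1
  have e1 : (fun x => f x + (-1 : ℂ) * g x) = fun x => f x - g x := by
    funext x
    ring
  rw [e1] at h1
  have hm : Y23.G.F.Hn a ν (fun x => (1 / 2 : ℂ) * (f x + (1 : ℂ) * g x)) := (hf.add (hg.smul 1)).smul (1 / 2)
  have hm1 : Y23.TT (fun x => (1 / 2 : ℂ) * (f x + (1 : ℂ) * g x)) 0 = 1 := by
    rw [Y23.TT_smul, Y23.TT_add hf.1 (hg.smul 1).1, Y23.TT_smul, hf1, hg1]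
    norm_num
  have h3 := hd _ hm hm1
  rw [QQ_smul', h2] at h3
  have e2 : ‖(1 / 2 : ℂ)‖ ^ 2 = 1 / 4 := by norm_num
  rw [e2] at h3
  simp only [map_neg, map_one, one_mul, neg_mul, Complex.neg_re, norm_neg, norm_one, one_pow] at h1 h3
  linarith

/-- the value of the form at a nearby function -/
theorem xte_near (hRH : RHy) {a : ℝ} (ha : 0 < a) {f F : ℝ → ℂ} (hf : Y23.Hd a f) (hF : Y23.Hd a F) {t : ℝ} (ht : 0 < t) :
    Y23.QQ F ≤ (1 + 1 / t) * Y23.QQ f + (1 + t) * Y23.QQ (fun x => f x - F x) := by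
  have hh : Y23.Hd a (fun x => f x - F x) := hf.sub hF
  have h1 := QQ_line ha hf hh (-1)
  have h2 := QQ_line ha hf hh (t : ℂ)
  have h3 := QQ_nn hRH (fun x => f x + (t : ℂ) * (fun x => f x - F x) x)
  have e1 : (fun x => f x + (-1 : ℂ) * (fun x => f x - F x) x) = F := by
    funext x
    simp
  rw [e1] at h1
  rw [h2] at h3
  have e2 : (conj (t : ℂ) * Y23.QB f (fun x => f x - F x)).re = t * (Y23.QB f (fun x => f x - F x)).re := by
    rw [Complex.conj_ofReal, Complex.re_ofReal_mul]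
  rw [e2, Complex.norm_real, Real.norm_eq_abs, sq_abs] at h3
  simp only [map_neg, map_one, one_mul, neg_mul, Complex.neg_re, norm_neg, norm_one, one_pow] at h1
  have h4 : -(2 * (Y23.QB f (fun x => f x - F x)).re) ≤ 1 / t * Y23.QQ f + t * Y23.QQ (fun x => f x - F x) := by
    have h5 : 0 ≤ 1 / t * (Y23.QQ f + 2 * (t * (Y23.QB f (fun x => f x - F x)).re) + t ^ 2 * Y23.QQ (fun x => f x - F x)) :=
      mul_nonneg (by positivity) h3
    have h6 : 1 / t * (Y23.QQ f + 2 * (t * (Y23.QB f (fun x => f x - F x)).re) + t ^ 2 * Y23.QQ (fun x => f x - F x)) =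
        1 / t * Y23.QQ f + 2 * (Y23.QB f (fun x => f x - F x)).re + t * Y23.QQ (fun x => f x - F x) := by
      field_simp
    rw [h6] at h5
    linarith
  linarith

theorem xtE : S_XtE := by
  intro hRH a ν ha
  obtain ⟨c, C, hc, hC, heq⟩ := xte_equiv hRH ha
  obtain ⟨e0, he0, he1⟩ := xte_one ha ν
  obtain ⟨S, hS⟩ : ∃ S : Set ℝ, S = {r : ℝ | ∃ f : ℝ → ℂ, Y23.G.F.Hn a ν f ∧ Y23.TT f 0 = 1 ∧ Y23.QQ f = r} := ⟨_, rfl⟩
  have hne : S.Nonempty := by
    rw [hS]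
    exact ⟨_, e0, he0, he1, rfl⟩
  have hbd : BddBelow S := by
    refine ⟨0, ?_⟩
    rw [hS]
    rintro r ⟨f, _, _, rfl⟩
    exact QQ_nn hRH f
  obtain ⟨d, hd⟩ : ∃ d : ℝ, d = sInf S := ⟨_, rfl⟩
  have hdl : ∀ f : ℝ → ℂ, Y23.G.F.Hn a ν f → Y23.TT f 0 = 1 → d ≤ Y23.QQ f := by
    intro f hf hf1
    rw [hd]
    refine csInf_le hbd ?_
    rw [hS]
    exact ⟨f, hf, hf1, rfl⟩
  have hex : ∀ n : ℕ, ∃ f : ℝ → ℂ, Y23.G.F.Hn a ν f ∧ Y23.TT f 0 = 1 ∧ Y23.QQ f ≤ d + 1 / ((n : ℝ) + 1) := by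
    intro n
    obtain ⟨r, hr, hlt⟩ := exists_lt_of_csInf_lt hne (show sInf S < d + 1 / ((n : ℝ) + 1) by
      rw [← hd]
      have : (0 : ℝ) < 1 / ((n : ℝ) + 1) := by positivity
      linarith)
    rw [hS] at hr
    obtain ⟨f, h1, h2, h3⟩ := hr
    exact ⟨f, h1, h2, by rw [h3]; exact hlt.le⟩
  choose f hf hf1 hfQ using hex
  have hcau : ∀ ε : ℝ, 0 < ε → ∃ N : ℕ, ∀ m n : ℕ, N ≤ m → N ≤ n → Y23.LL (fun x => f m x - f n x) ≤ ε := by
    intro ε hε
    obtain ⟨N, hN⟩ := exists_nat_ge (4 * c / ε)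
    refine ⟨N, fun m n hm hn => ?_⟩
    have hb : ∀ k : ℕ, N ≤ k → 1 / ((k : ℝ) + 1) ≤ ε / (4 * c) := by
      intro k hk
      have h1 : 4 * c / ε ≤ (k : ℝ) + 1 := by
        have : (N : ℝ) ≤ k := by exact_mod_cast hk
        linarith
      rw [div_le_div_iff₀ (by positivity) (by positivity)]
      rw [div_le_iff₀ hε] at h1
      linarith
    have h1 := (heq _ ((hf m).hd.sub (hf n).hd)).1
    have h2 := xte_par ha hdl (hf m) (hf n) (hf1 m) (hf1 n)
    have h3 := hfQ m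
    have h4 := hfQ n
    have h5 := hb m hm
    have h6 := hb n hn
    have h7 : Y23.QQ (fun x => f m x - f n x) ≤ ε / c := by
      have h8 : ε / c = 4 * (ε / (4 * c)) := by field_simp
      rw [h8]
      linarith
    calc Y23.LL (fun x => f m x - f n x) ≤ c * Y23.QQ (fun x => f m x - f n x) := h1
      _ ≤ c * (ε / c) := mul_le_mul_of_nonneg_left h7 hc.le
      _ = ε := by field_simp
  obtain ⟨F, hF, hlim⟩ := Y23.complete_seq ha (fun n => (hf n).hd) hcau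
  have hFn : Y23.G.F.Hn a ν F := Y23.G.F.Hn.lim ha hf hF hlim
  have hLL : Tendsto (fun n => Y23.LL (fun x => f n x - F x)) atTop (𝓝 0) := by
    rw [Metric.tendsto_atTop]
    intro ε hε
    obtain ⟨N, hN⟩ := hlim (ε / 2) (by positivity)
    refine ⟨N, fun n hn => ?_⟩
    rw [Real.dist_eq, sub_zero, abs_of_nonneg (Y23.LL_nonneg _)]
    have := hN n hn
    linarith
  have hF1 : Y23.TT F 0 = 1 := by
    have h1 : Tendsto (fun n => a / Real.pi * Y23.LL (fun x => f n x - F x)) atTop (𝓝 0) := by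
      have := hLL.const_mul (a / Real.pi)
      rwa [mul_zero] at this
    have h2 : ∀ n, ‖1 - Y23.TT F 0‖ ^ 2 ≤ a / Real.pi * Y23.LL (fun x => f n x - F x) := by
      intro n
      have hh := (hf n).hd.sub hF
      have h3 := Y23.norm_TT_le ha hh.1 0
      rw [Y23.TT_sub (hf n).1 hF.1, hf1, Complex.zero_re, abs_zero, mul_zero, Real.exp_zero, mul_one] at h3
      have h4 := Y23.N2_le_LL hh
      have hpi := Real.pi_pos
      refine h3.trans ?_
      calc 2 * a * Y23.N2 (fun x => f n x - F x) = a / Real.pi * (2 * Real.pi * Y23.N2 (fun x => f n x - F x)) := by field_simp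
        _ ≤ a / Real.pi * Y23.LL (fun x => f n x - F x) := by gcongr
    have h3 : ‖1 - Y23.TT F 0‖ ^ 2 ≤ 0 := ge_of_tendsto' h1 h2
    have h4 : ‖1 - Y23.TT F 0‖ = 0 := by
      have := le_antisymm h3 (sq_nonneg _)
      exact pow_eq_zero_iff two_ne_zero |>.1 this
    exact (sub_eq_zero.1 (norm_eq_zero.1 h4)).symm
  have hd0 : 0 ≤ d := by
    rw [hd]
    refine le_csInf hne ?_
    rw [hS]
    rintro r ⟨f, _, _, rfl⟩
    exact QQ_nn hRH f
  have hFd : Y23.QQ F ≤ d := by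
    have h1 : ∀ t : ℝ, 0 < t → Y23.QQ F ≤ (1 + 1 / t) * d := by
      intro t ht
      have h2 : Tendsto (fun n : ℕ => (1 + 1 / t) * (d + 1 / ((n : ℝ) + 1)) + (1 + t) * (C * Y23.LL (fun x => f n x - F x)))
          atTop (𝓝 ((1 + 1 / t) * (d + 0) + (1 + t) * (C * 0))) :=
        ((tendsto_const_nhds.add tendsto_one_div_add_atTop_nhds_zero_nat).const_mul _).add ((hLL.const_mul C).const_mul _)
      rw [add_zero, mul_zero, mul_zero, add_zero] at h2
      refine ge_of_tendsto' h2 fun n => ?_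
      have h3 := xte_near hRH ha (hf n).hd hF ht
      have h4 := (heq _ ((hf n).hd.sub hF)).2
      have h5 : (1 + 1 / t) * Y23.QQ (f n) ≤ (1 + 1 / t) * (d + 1 / ((n : ℝ) + 1)) :=
        mul_le_mul_of_nonneg_left (hfQ n) (by positivity)
      have h6 : (1 + t) * Y23.QQ (fun x => f n x - F x) ≤ (1 + t) * (C * Y23.LL (fun x => f n x - F x)) :=
        mul_le_mul_of_nonneg_left h4 (by positivity)
      linarith
    have h2 : Tendsto (fun n : ℕ => (1 + 1 / ((n : ℝ) + 1)) * d) atTop (𝓝 ((1 + 0) * d)) :=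
      (tendsto_const_nhds.add tendsto_one_div_add_atTop_nhds_zero_nat).mul_const d
    rw [add_zero, one_mul] at h2
    exact ge_of_tendsto' h2 fun n => h1 _ (by positivity)
  exact ⟨F, hFn, hF1, fun g hg hg1 => hFd.trans (hdl g hg hg1)⟩

end Pool.Agent.Q208.EX
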